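import Pool.Agent.TH271.CU.Fin

set_option autoImplicit false

namespace Pool.Agent.Results.MP_181555_al.CubesOfTransvections

open Pool.Agent.TH271.CU Pool.Agent.Helper156.OF

/-- The Heisenberg group of order 27: triples over `ZMod 3` with
`(a, b, c) * (a', b', c') = (a + a', b + b', c + c' + a * b')`. -/
abbrev Heis : Type := Pool.Agent.TH271.CU.Heis

/-- The intersection of the kernels of all homomorphisms from the free group of rank `n` to the
Heisenberg group of order 27. -/
def K (n : ℕ) : Subgroup (FreeGroup (Fin n)) :=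
  ⨅ f : FreeGroup (Fin n) →* Heis, f.ker

/-- `τ` is the transvection `x i ↦ x i * x j` (with `i ≠ j`), fixing the other generators. -/
def IsTransvection {n : ℕ} (τ : MulAut (FreeGroup (Fin n))) : Prop :=
  ∃ i j : Fin n, i ≠ j ∧ τ (FreeGroup.of i) = FreeGroup.of i * FreeGroup.of j ∧
    ∀ k, k ≠ i → τ (FreeGroup.of k) = FreeGroup.of k

/-- `c` is the partial conjugation `x i ↦ (x j)⁻¹ * x i * x j`, fixing the other generators. -/
def IsPartialConj {n : ℕ} (i j : Fin n) (c : MulAut (FreeGroup (Fin n))) : Prop :=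
  c (FreeGroup.of i) = (FreeGroup.of j)⁻¹ * FreeGroup.of i * FreeGroup.of j ∧
    ∀ k, k ≠ i → c (FreeGroup.of k) = FreeGroup.of k

lemma mem_K {n : ℕ} {x : FreeGroup (Fin n)} :
    x ∈ K n ↔ ∀ f : FreeGroup (Fin n) →* Heis, f x = 1 := by
  unfold K
  rw [Subgroup.mem_iInf]
  rfl

instance finHom (n : ℕ) : Finite (FreeGroup (Fin n) →* Heis) :=
  Finite.of_equiv _ (FreeGroup.lift (α := Fin n) (β := Heis))

lemma K_char (n : ℕ) : (K n).Characteristic := by
  rw [Subgroup.characteristic_iff_le_comap]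
  intro φ x hx
  rw [Subgroup.mem_comap]
  rw [mem_K] at hx ⊢
  intro f
  exact hx (f.comp φ.toMonoidHom)

lemma K_fin (n : ℕ) : (K n).FiniteIndex := by
  unfold K
  exact Subgroup.finiteIndex_iInf fun f => inferInstance

/-- The common conclusion. -/
lemma main {n : ℕ} {N : Subgroup (MulAut (FreeGroup (Fin n)))} (hN0 : N0 (Fin n) ≤ N) :
    N.FiniteIndex ∧
      (∀ ψ : MulAut (FreeGroup (Fin n)), (∀ x : FreeGroup (Fin n), ψ x * x⁻¹ ∈ K n) → ψ ∈ N) ∧
      ((∀ g : FreeGroup (Fin n), MulAut.conj g ∈ N) →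
        ∀ ψ : MulAut (FreeGroup (Fin n)),
          (∃ g : FreeGroup (Fin n), ∀ x : FreeGroup (Fin n),
            ψ x * (g * x * g⁻¹)⁻¹ ∈ K n) → ψ ∈ N) := by
  have key : ∀ ψ : MulAut (FreeGroup (Fin n)),
      (∀ x : FreeGroup (Fin n), ψ x * x⁻¹ ∈ K n) → ψ ∈ N := by
    intro ψ hψ
    apply hN0
    apply core (ρ := fun i : Fin n => (i : ℕ)) Fin.val_injective
    intro f x
    have := mem_K.1 (hψ x) f
    rw [map_mul, map_inv, mul_inv_eq_one] at this
    exact this
  refine ⟨?_, key, ?_⟩
  · let act : MulAut (FreeGroup (Fin n)) →*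
        Equiv.Perm (FreeGroup (Fin n) →* Heis) :=
      { toFun := fun ψ =>
          { toFun := fun f =>
              f.comp ((ψ⁻¹ : MulAut (FreeGroup (Fin n))) : FreeGroup (Fin n) →* FreeGroup (Fin n))
            invFun := fun f =>
              f.comp ((ψ : MulAut (FreeGroup (Fin n))) : FreeGroup (Fin n) →* FreeGroup (Fin n))
            left_inv := fun f => by
              ext1 x
              show f (ψ⁻¹ (ψ (FreeGroup.of x))) = _
              rw [MulAut.inv_apply_self]
            right_inv := fun f => by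
              ext1 x
              show f (ψ (ψ⁻¹ (FreeGroup.of x))) = _
              rw [MulAut.apply_inv_self] }
        map_one' := by
          ext1 f
          ext1 x
          rfl
        map_mul' := by
          intro a b
          ext1 f
          ext1 x
          show f ((a * b)⁻¹ (FreeGroup.of x)) = f (b⁻¹ (a⁻¹ (FreeGroup.of x)))
          rw [mul_inv_rev]
          rfl }
    have hfin : act.ker.FiniteIndex := inferInstance
    refine Subgroup.finiteIndex_of_le (H := act.ker) ?_
    intro ψ hψ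
    have hψ' : act ψ = 1 := hψ
    apply key
    intro x
    rw [mem_K]
    intro f
    have h5 : act ψ⁻¹ f = f := by
      rw [map_inv, hψ', inv_one]
      rfl
    have h6 : f ((ψ⁻¹)⁻¹ x) = f x := DFunLike.congr_fun h5 x
    rw [inv_inv] at h6
    rw [map_mul, map_inv, h6, mul_inv_cancel]
  · rintro hinn ψ ⟨g, hg⟩
    have h7 : (MulAut.conj g)⁻¹ * ψ ∈ N := by
      apply key
      intro x
      rw [mem_K]
      intro f
      have h8 := mem_K.1 (hg x) f
      have h9 : ((MulAut.conj g)⁻¹ * ψ) x = g⁻¹ * ψ x * g := by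
        rw [MulAut.mul_apply, MulAut.conj_inv_apply]
      rw [h9]
      simp only [map_mul, map_inv] at h8 ⊢
      rw [mul_inv_eq_one] at h8
      rw [h8]
      group
    have h10 := mul_mem (hinn g) h7
    rwa [mul_inv_cancel_left] at h10

lemma transv_eq {n : ℕ} {τ : MulAut (FreeGroup (Fin n))} {i j : Fin n} (hij : i ≠ j)
    (h1 : τ (FreeGroup.of i) = FreeGroup.of i * FreeGroup.of j)
    (h2 : ∀ k, k ≠ i → τ (FreeGroup.of k) = FreeGroup.of k) :
    τ = eAut (i, true) (j, true) := by
  apply MulEquiv.toMonoidHom_injective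
  ext1 k
  show τ (FreeGroup.of k) = eAut (i, true) (j, true) (FreeGroup.of k)
  by_cases hk : k = i
  · rw [hk, h1]; exact (e_gl (x := ((i, true) : Lt (Fin n))) (a := (j, true)) hij).symm
  · rw [h2 k hk]; exact (eAut_fix (i, true) (j, true) (k, true) hk).symm

lemma pconj_eq {n : ℕ} {c : MulAut (FreeGroup (Fin n))} {i j : Fin n} (hij : i ≠ j)
    (h : IsPartialConj i j c) : c = KK eAut (i, true) (j, true) := by
  apply MulEquiv.toMonoidHom_injective
  ext1 k
  show c (FreeGroup.of k) = KK eAut (i, true) (j, true) (FreeGroup.of k)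
  by_cases hk : k = i
  · rw [hk, h.1]; exact (KKe_gl (y := ((i, true) : Lt (Fin n))) (z := (j, true)) hij).symm
  · rw [h.2 k hk]
    exact (KKe_fix (y := ((i, true) : Lt (Fin n))) (z := (j, true)) (c := (k, true)) hk).symm

/-- Let `n ≥ 3` and let `N` be a normal subgroup of `Aut (F_n)` that contains the cube of a
transvection. Suppose that `n = 3` and `N` contains the inner automorphisms, or that `N` contains
the commutator of two partial conjugations of the same generator. Then `N` has finite index and is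
a congruence subgroup, with `K n` as the characteristic subgroup. -/
theorem result : ∀ n : ℕ, 2 < n →
    (K n).Characteristic ∧ (K n).FiniteIndex ∧
    ∀ N : Subgroup (MulAut (FreeGroup (Fin n))), N.Normal →
      (∃ τ : MulAut (FreeGroup (Fin n)), IsTransvection τ ∧ τ * τ * τ ∈ N) →
      ((n = 3 ∧ ∀ g : FreeGroup (Fin n), MulAut.conj g ∈ N) ∨
        (∃ (i j k : Fin n) (c d : MulAut (FreeGroup (Fin n))), i ≠ j ∧ i ≠ k ∧ j ≠ k ∧
          IsPartialConj i j c ∧ IsPartialConj i k d ∧ c * d * c⁻¹ * d⁻¹ ∈ N)) →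
      N.FiniteIndex ∧
      (∀ ψ : MulAut (FreeGroup (Fin n)), (∀ x : FreeGroup (Fin n), ψ x * x⁻¹ ∈ K n) → ψ ∈ N) ∧
      ((∀ g : FreeGroup (Fin n), MulAut.conj g ∈ N) →
        ∀ ψ : MulAut (FreeGroup (Fin n)),
          (∃ g : FreeGroup (Fin n), ∀ x : FreeGroup (Fin n),
            ψ x * (g * x * g⁻¹)⁻¹ ∈ K n) → ψ ∈ N) := by
  intro n _
  refine ⟨K_char n, K_fin n, ?_⟩
  rintro N hN ⟨τ, ⟨i, j, hij, h1, h2⟩, hτ⟩ hyp
  rw [transv_eq hij h1 h2] at hτ
  rcases hyp with ⟨rfl, hinn⟩ | ⟨a, b, e, c, d, hab, hae, hbe, hc, hd, hcd⟩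
  · exact main (N0_le hN hij hτ (a := 0) (b := 1) (c := 2) (by decide) (by decide)
      (by decide) (comm_three hN hinn hij hτ))
  · rw [pconj_eq hab hc, pconj_eq hae hd] at hcd
    exact main (N0_le hN hij hτ hab hae hbe hcd)

end Pool.Agent.Results.MP_181555_al.CubesOfTransvections
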