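import Pool.Agent.TH271.CV.Final

set_option autoImplicit false

namespace Pool.Agent.Results.MP_181555_al.CubesRankFive

open Pool.Agent.TH271.CU Pool.Agent.TH271.CV Pool.Agent.Helper156.OF

/-- The free group of exponent three on three generators, of order `3 ^ 7`: septuples
`(i, j, k, l, m, n, o)` over `ZMod 3`, where the product of `g` and `h` has the coordinates
`g.i + h.i`, `g.j + h.j`, `g.k + h.k`, `g.l + h.l + g.j * h.i`, `g.m + h.m + g.k * h.i`,
`g.n + h.n + g.k * h.j` and
`g.o + h.o + (g.n + g.j * g.k) * h.i - (g.m + g.k * h.i) * h.j + (g.l + g.j * h.i) * h.k`. -/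
abbrev B33 : Type := Pool.Agent.TH271.CV.B33

/-- The intersection of the kernels of all homomorphisms from the free group of rank `n` to the
group `B33` of order `3 ^ 7`. -/
def K (n : ℕ) : Subgroup (FreeGroup (Fin n)) :=
  ⨅ f : FreeGroup (Fin n) →* B33, f.ker

/-- `τ` is the transvection `x i ↦ x i * x j` (with `i ≠ j`), fixing the other generators. -/
def IsTransvection {n : ℕ} (τ : MulAut (FreeGroup (Fin n))) : Prop :=
  ∃ i j : Fin n, i ≠ j ∧ τ (FreeGroup.of i) = FreeGroup.of i * FreeGroup.of j ∧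
    ∀ k, k ≠ i → τ (FreeGroup.of k) = FreeGroup.of k

/-- The commutator `[a, b] = a * b * a⁻¹ * b⁻¹`. -/
def comm {G : Type} [Group G] (a b : G) : G := a * b * a⁻¹ * b⁻¹

/-- `c` is the partial conjugation `x p ↦ w⁻¹ * x p * w`, fixing the other generators, where `w`
is the triple commutator `[x i, [x j, x k]]` of three other generators. -/
def IsTriplePartialConj {n : ℕ} (c : MulAut (FreeGroup (Fin n))) : Prop :=
  ∃ p i j k : Fin n, p ≠ i ∧ p ≠ j ∧ p ≠ k ∧ i ≠ j ∧ i ≠ k ∧ j ≠ k ∧
    c (FreeGroup.of p) =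
      (comm (FreeGroup.of i) (comm (FreeGroup.of j) (FreeGroup.of k)))⁻¹ * FreeGroup.of p *
        comm (FreeGroup.of i) (comm (FreeGroup.of j) (FreeGroup.of k)) ∧
    ∀ l, l ≠ p → c (FreeGroup.of l) = FreeGroup.of l

lemma mem_K {n : ℕ} {x : FreeGroup (Fin n)} :
    x ∈ K n ↔ ∀ f : FreeGroup (Fin n) →* B33, f x = 1 := by
  unfold K
  rw [Subgroup.mem_iInf]
  rfl

instance finHom (n : ℕ) : Finite (FreeGroup (Fin n) →* B33) :=
  Finite.of_equiv _ (FreeGroup.lift (α := Fin n) (β := B33))

lemma K_char (n : ℕ) : (K n).Characteristic := by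
  rw [Subgroup.characteristic_iff_le_comap]
  intro φ x hx
  rw [Subgroup.mem_comap]
  rw [mem_K] at hx ⊢
  intro f
  exact hx (f.comp φ.toMonoidHom)

lemma K_fin (n : ℕ) : (K n).FiniteIndex := by
  unfold K
  exact Subgroup.finiteIndex_iInf fun f => inferInstance

/-- The common conclusion. -/
lemma main {n : ℕ} (h5 : 5 ≤ n) {N : Subgroup (MulAut (FreeGroup (Fin n)))}
    (hN0 : N3 (Fin n) ≤ N) :
    N.FiniteIndex ∧
      (∀ ψ : MulAut (FreeGroup (Fin n)), (∀ x : FreeGroup (Fin n), ψ x * x⁻¹ ∈ K n) → ψ ∈ N) ∧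
      ((∀ g : FreeGroup (Fin n), MulAut.conj g ∈ N) →
        ∀ ψ : MulAut (FreeGroup (Fin n)),
          (∃ g : FreeGroup (Fin n), ∀ x : FreeGroup (Fin n),
            ψ x * (g * x * g⁻¹)⁻¹ ∈ K n) → ψ ∈ N) := by
  have key : ∀ ψ : MulAut (FreeGroup (Fin n)),
      (∀ x : FreeGroup (Fin n), ψ x * x⁻¹ ∈ K n) → ψ ∈ N := by
    intro ψ hψ
    apply hN0
    apply core3 (by rw [Fintype.card_fin]; exact h5) (ρ := fun i : Fin n => (i : ℕ))
      Fin.val_injective
    intro f x
    have := mem_K.1 (hψ x) f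
    rw [map_mul, map_inv, mul_inv_eq_one] at this
    exact this
  refine ⟨?_, key, ?_⟩
  · let act : MulAut (FreeGroup (Fin n)) →*
        Equiv.Perm (FreeGroup (Fin n) →* B33) :=
      { toFun := fun ψ =>
          { toFun := fun f =>
              f.comp ((ψ⁻¹ : MulAut (FreeGroup (Fin n))) : FreeGroup (Fin n) →* FreeGroup (Fin n))
            invFun := fun f =>
              f.comp ((ψ : MulAut (FreeGroup (Fin n))) : FreeGroup (Fin n) →* FreeGroup (Fin n))
            left_inv := fun f => by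
              ext1 x
              show f (ψ⁻¹ (ψ (FreeGroup.of x))) = _
              rw [MulAut.inv_apply_self]
            right_inv := fun f => by
              ext1 x
              show f (ψ (ψ⁻¹ (FreeGroup.of x))) = _
              rw [MulAut.apply_inv_self] }
        map_one' := by
          ext1 f
          ext1 x
          rfl
        map_mul' := by
          intro a b
          ext1 f
          ext1 x
          show f ((a * b)⁻¹ (FreeGroup.of x)) = f (b⁻¹ (a⁻¹ (FreeGroup.of x)))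
          rw [mul_inv_rev]
          rfl }
    have hfin : act.ker.FiniteIndex := inferInstance
    refine Subgroup.finiteIndex_of_le (H := act.ker) ?_
    intro ψ hψ
    have hψ' : act ψ = 1 := hψ
    apply key
    intro x
    rw [mem_K]
    intro f
    have h5 : act ψ⁻¹ f = f := by
      rw [map_inv, hψ', inv_one]
      rfl
    have h6 : f ((ψ⁻¹)⁻¹ x) = f x := DFunLike.congr_fun h5 x
    rw [inv_inv] at h6
    rw [map_mul, map_inv, h6, mul_inv_cancel]
  · rintro hinn ψ ⟨g, hg⟩
    have h7 : (MulAut.conj g)⁻¹ * ψ ∈ N := by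
      apply key
      intro x
      rw [mem_K]
      intro f
      have h8 := mem_K.1 (hg x) f
      have h9 : ((MulAut.conj g)⁻¹ * ψ) x = g⁻¹ * ψ x * g := by
        rw [MulAut.mul_apply, MulAut.conj_inv_apply]
      rw [h9]
      simp only [map_mul, map_inv] at h8 ⊢
      rw [mul_inv_eq_one] at h8
      rw [h8]
      group
    have h10 := mul_mem (hinn g) h7
    rwa [mul_inv_cancel_left] at h10

lemma transv_eq {n : ℕ} {τ : MulAut (FreeGroup (Fin n))} {i j : Fin n} (hij : i ≠ j)
    (h1 : τ (FreeGroup.of i) = FreeGroup.of i * FreeGroup.of j)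
    (h2 : ∀ k, k ≠ i → τ (FreeGroup.of k) = FreeGroup.of k) :
    τ = eAut (i, true) (j, true) := by
  apply MulEquiv.toMonoidHom_injective
  ext1 k
  show τ (FreeGroup.of k) = eAut (i, true) (j, true) (FreeGroup.of k)
  by_cases hk : k = i
  · rw [hk, h1]; exact (e_gl (x := ((i, true) : Lt (Fin n))) (a := (j, true)) hij).symm
  · rw [h2 k hk]; exact (eAut_fix (i, true) (j, true) (k, true) hk).symm

lemma triple_eq {n : ℕ} {c : MulAut (FreeGroup (Fin n))} {p i j k : Fin n} (h1 : p ≠ i)
    (h2 : p ≠ j) (h3 : p ≠ k)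
    (hc : c (FreeGroup.of p) =
      (comm (FreeGroup.of i) (comm (FreeGroup.of j) (FreeGroup.of k)))⁻¹ * FreeGroup.of p *
        comm (FreeGroup.of i) (comm (FreeGroup.of j) (FreeGroup.of k)))
    (hf : ∀ l, l ≠ p → c (FreeGroup.of l) = FreeGroup.of l) :
    c = FF eAut (p, true) (i, true) (j, true) (k, true) := by
  apply MulEquiv.toMonoidHom_injective
  ext1 l
  show c (FreeGroup.of l) = FF eAut (p, true) (i, true) (j, true) (k, true) (FreeGroup.of l)
  by_cases hl : l = p
  · rw [hl, hc]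
    refine Eq.trans ?_ (FFe_gl (p := ((p, true) : Lt (Fin n))) (a := (i, true)) (b := (j, true))
      (c := (k, true)) h1 h2 h3).symm
    simp only [gl_true, comm]
  · rw [hf l hl]
    exact (FFe_fix (p := ((p, true) : Lt (Fin n))) (a := (i, true)) (b := (j, true))
      (c := (k, true)) (d := (l, true)) hl).symm

/-- Let `n ≥ 5` and let `N` be a normal subgroup of `Aut (F_n)` that contains the cube of a
transvection. Suppose that `n` is not `1` modulo `3` and `N` contains the inner automorphisms, or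
that `N` contains the partial conjugation by a triple commutator. Then `N` has finite index and is
a congruence subgroup, with `K n` as the characteristic subgroup. -/
theorem result : ∀ n : ℕ, 5 ≤ n →
    (K n).Characteristic ∧ (K n).FiniteIndex ∧
    ∀ N : Subgroup (MulAut (FreeGroup (Fin n))), N.Normal →
      (∃ τ : MulAut (FreeGroup (Fin n)), IsTransvection τ ∧ τ * τ * τ ∈ N) →
      ((n % 3 ≠ 1 ∧ ∀ g : FreeGroup (Fin n), MulAut.conj g ∈ N) ∨
        (∃ c : MulAut (FreeGroup (Fin n)), IsTriplePartialConj c ∧ c ∈ N)) →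
      N.FiniteIndex ∧
      (∀ ψ : MulAut (FreeGroup (Fin n)), (∀ x : FreeGroup (Fin n), ψ x * x⁻¹ ∈ K n) → ψ ∈ N) ∧
      ((∀ g : FreeGroup (Fin n), MulAut.conj g ∈ N) →
        ∀ ψ : MulAut (FreeGroup (Fin n)),
          (∃ g : FreeGroup (Fin n), ∀ x : FreeGroup (Fin n),
            ψ x * (g * x * g⁻¹)⁻¹ ∈ K n) → ψ ∈ N) := by
  intro n h5
  refine ⟨K_char n, K_fin n, ?_⟩
  rintro N hN ⟨τ, ⟨i, j, hij, h1, h2⟩, hτ⟩ hyp
  rw [transv_eq hij h1 h2] at hτ
  have h0 := cube_all hN hij hτ
  rcases hyp with ⟨h3, hinn⟩ | ⟨c, ⟨p, a, b, d, g1, g2, g3, g4, g5, g6, hc, hf⟩, hcN⟩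
  · exact main h5 (N3_le_out h5 h3 hN h0 hinn)
  · rw [triple_eq g1 g2 g3 hc hf] at hcN
    exact main h5 (N3_le hN h0 (p := (p, true)) (a := (a, true)) (b := (b, true))
      (c := (d, true)) g1 g2 g3 g4 g5 g6 hcN)

end Pool.Agent.Results.MP_181555_al.CubesRankFive
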