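import Pool.Agent.TH610.CSP.Main

/-! # MP_181555_al: the congruence subgroup property of `Out(F_n)` and the Johnson filtration -/

set_option autoImplicit false

namespace Pool.Agent.Results.MP_181555_al.JohnsonKernels

open Pool.Agent.TH610.CSP

/-- Let `n > 2`, let `N` be a normal subgroup of finite index in `Aut(F_n)`, let `c ≥ 0` and let
`K₀ ≤ F_n` be a characteristic subgroup of finite index such that `N` contains every automorphism
which acts trivially on `F_n / K₀` and on the nilpotent group `F_n / γ_{c+1}(F_n)`. Then there is a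
characteristic subgroup `K ≤ F_n` of finite index such that `N` contains every automorphism which
acts trivially on `F_n / K`; and if `N` contains the inner automorphisms, then it contains every
automorphism which acts on `F_n / K` as an inner automorphism. -/
theorem result : ∀ n : ℕ, 2 < n →
    ∀ N : Subgroup (MulAut (FreeGroup (Fin n))), N.Normal → N.FiniteIndex →
    ∀ (c : ℕ) (K₀ : Subgroup (FreeGroup (Fin n))), K₀.Characteristic → K₀.FiniteIndex →
      (∀ ψ : MulAut (FreeGroup (Fin n)), (∀ x, ψ x * x⁻¹ ∈ K₀) →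
        (∀ x, ψ x * x⁻¹ ∈ (⊤ : Subgroup (FreeGroup (Fin n))).lowerCentralSeries c) → ψ ∈ N) →
      ∃ K : Subgroup (FreeGroup (Fin n)), K.Characteristic ∧ K.FiniteIndex ∧
        (∀ ψ : MulAut (FreeGroup (Fin n)), (∀ x, ψ x * x⁻¹ ∈ K) → ψ ∈ N) ∧
        ((∀ g : FreeGroup (Fin n), MulAut.conj g ∈ N) →
          ∀ ψ : MulAut (FreeGroup (Fin n)),
            (∃ g : FreeGroup (Fin n), ∀ x : FreeGroup (Fin n),
              ψ x * (g * x * g⁻¹)⁻¹ ∈ K) → ψ ∈ N) := by
  intro n hn N hN hf c K₀ hK₀ hK₀f h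
  obtain ⟨K, hK, hKf, hKN⟩ := pc_zero n (by omega) N hN hf c ⟨K₀, hK₀, hK₀f, h⟩
  have h1 : ∀ ψ : MulAut (FreeGroup (Fin n)), (∀ x, ψ x * x⁻¹ ∈ K) → ψ ∈ N :=
    fun ψ hψ => hKN ψ hψ (fun x => Subgroup.mem_top _)
  exact ⟨K, hK, hKf, h1, fun hi ψ hψ => outer N K hK h1 hi ψ hψ⟩

end Pool.Agent.Results.MP_181555_al.JohnsonKernels
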