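import Mathlib
import Pool.Agent.TH35.CH.Trv
import Pool.Agent.Results.MP_181555_al.SquaresOfTransvections

set_option autoImplicit false

/-! Quotients of `Aut(F_n)` with a faithful representation of small degree. -/

namespace Pool.Agent.Results.MP_181555_al.SmallDegreeQuotients

open Pool.Agent.TH35.CH

/-- `τ` is a transvection: `x i ↦ x i * x j` for some `i ≠ j`, the other generators are fixed. -/
def IsTransvection {n : ℕ} (τ : MulAut (FreeGroup (Fin n))) : Prop :=
  ∃ i j : Fin n, i ≠ j ∧ τ (FreeGroup.of i) = FreeGroup.of i * FreeGroup.of j ∧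
    ∀ k, k ≠ i → τ (FreeGroup.of k) = FreeGroup.of k

/-- `ψ` acts on `F_n / C` as an inner automorphism. -/
def InnerMod {n : ℕ} (C : Subgroup (FreeGroup (Fin n))) (ψ : MulAut (FreeGroup (Fin n))) : Prop :=
  ∃ g : FreeGroup (Fin n), ∀ x : FreeGroup (Fin n), ψ x * (g * x * g⁻¹)⁻¹ ∈ C

theorem inn_mem {n : ℕ} (hn : 2 ≤ n) (N : Subgroup (MulAut (FreeGroup (Fin n)))) (hN : N.Normal)
    (h : ∀ τ : MulAut (FreeGroup (Fin n)), IsTransvection τ → τ ∈ N) (g : FreeGroup (Fin n)) :
    MulAut.conj g ∈ N := by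
  have hof : ∀ z : Fin n, MulAut.conj (FreeGroup.of z) ∈ N := by
    intro z
    have hex : ∃ u : Fin n, u ≠ z := by
      have : Nontrivial (Fin n) := Fin.nontrivial_iff_two_le.2 hn
      exact exists_ne z
    obtain ⟨u, hu⟩ := hex
    have h1 : trR u z hu.symm ∈ N :=
      h _ ⟨u, z, hu, trR_self u z hu.symm, fun k hk => trR_ne u z hu.symm hk⟩
    have h2 := conj_aut (trR u z hu.symm) (FreeGroup.of u)
    rw [trR_self, map_mul] at h2
    have h4 : MulAut.conj (FreeGroup.of z) = ((MulAut.conj (FreeGroup.of u))⁻¹ *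
        trR u z hu.symm * ((MulAut.conj (FreeGroup.of u))⁻¹)⁻¹) *
          (trR u z hu.symm)⁻¹ := by
      calc MulAut.conj (FreeGroup.of z) = (MulAut.conj (FreeGroup.of u))⁻¹ *
          (MulAut.conj (FreeGroup.of u) * MulAut.conj (FreeGroup.of z)) := by group
        _ = _ := by rw [← h2]; group
    rw [h4]
    exact mul_mem (hN.conj_mem _ h1 _) (inv_mem h1)
  induction g using FreeGroup.induction_on with
  | C1 => rw [map_one]; exact one_mem _
  | of x => exact hof x
  | inv_of x hx => rw [map_inv]; exact inv_mem hx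
  | mul x y hx hy => rw [map_mul]; exact mul_mem hx hy

theorem result :
    ∀ n m d : ℕ, m + 5 ≤ n / 2 → d < 2 ^ m →
    (∀ (K : Type) [Field K]
      (f : MulAut (FreeGroup (Fin n)) →* Matrix.GeneralLinearGroup (Fin d) K)
      (τ : MulAut (FreeGroup (Fin n))), IsTransvection τ →
        ((f τ : Matrix (Fin d) (Fin d) K) - 1) ^ m = 0) ∧
    (∀ (N : Subgroup (MulAut (FreeGroup (Fin n)))) [N.Normal] (K : Type) [Field K]
      (f : MulAut (FreeGroup (Fin n)) ⧸ N →* Matrix.GeneralLinearGroup (Fin d) K),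
      Function.Injective f →
      ∀ k : ℕ, (k : K) ≠ 0 →
      (∃ τ : MulAut (FreeGroup (Fin n)), IsTransvection τ ∧ τ ^ k ∈ N) →
      N.FiniteIndex ∧
      (∀ τ : MulAut (FreeGroup (Fin n)), IsTransvection τ → τ ∈ N) ∧
      ∃ C : Subgroup (FreeGroup (Fin n)), C.Characteristic ∧ C.FiniteIndex ∧
        ∀ ψ : MulAut (FreeGroup (Fin n)), InnerMod C ψ → ψ ∈ N) := by
  intro n m d hm hd
  refine ⟨fun K _ f τ hτ => trv_unip hm hd K f hτ, ?_⟩
  intro N hN K _ f hf k hk hex
  obtain ⟨τ0, hτ0, hτk⟩ := hex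
  have hall : ∀ τ : MulAut (FreeGroup (Fin n)), IsTransvection τ → τ ∈ N := by
    intro τ hτ
    obtain ⟨φ, hφ⟩ := trv_conj hτ0 hτ
    have h1 : τ ^ k ∈ N := by
      rw [hφ, conj_pow]
      exact hN.conj_mem _ hτk _
    have h2 := trv_unip hm hd K (f.comp (QuotientGroup.mk' N)) hτ
    have h3 : (f.comp (QuotientGroup.mk' N)) τ = 1 := by
      refine unip_fin _ h2 hk ?_
      rw [← map_pow, MonoidHom.comp_apply]
      have h4 : (QuotientGroup.mk' N) (τ ^ k) = 1 := (QuotientGroup.eq_one_iff _).2 h1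
      rw [h4, map_one]
    have h5 : (QuotientGroup.mk' N) τ = 1 := by
      apply hf
      rw [map_one]
      exact h3
    exact (QuotientGroup.eq_one_iff _).1 h5
  obtain ⟨hC1, hC2, hC3⟩ :=
    Pool.Agent.Results.MP_181555_al.SquaresOfTransvections.result n (by omega)
  obtain ⟨hfi, -, hin⟩ := hC3 N hN ⟨τ0, hτ0, mul_mem (hall τ0 hτ0) (hall τ0 hτ0)⟩
  exact ⟨hfi, hall, _, hC1, hC2, fun ψ hψ => hin (inn_mem (by omega) N hN hall) ψ hψ⟩

end Pool.Agent.Results.MP_181555_al.SmallDegreeQuotients
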